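import Pool.Agent.Q278.GC.Stm5

/-!
Job GC-Q1: the points outside the good event carry little mass.
-/

set_option autoImplicit false

namespace Pool.Agent.Q153.GC

open Filter Topology MeasureTheory ProbabilityTheory
open Pool.Agent.Q278.GC

/-- the big covariance matrix is positive semidefinite -/
lemma sb_psd (K : ℕ → ℕ → ℝ → ℝ → ℝ) (κ C : ℝ) (hK : KerB K κ C) (Jm n : ℕ) :
    (SB K Jm n).PosSemidef := by
  have e : Fin (Jm + 1) × Fin n ≃ Fin ((Jm + 1) * n) := finProdFinEquiv
  have h1 := hK.psd ((Jm + 1) * n) (fun i => ((e.symm i).1 : ℕ))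
    (fun i => (((e.symm i).2 : ℕ) : ℝ) / (n : ℝ))
  have h2 := h1.submatrix (e : Fin (Jm + 1) × Fin n → Fin ((Jm + 1) * n))
  have h3 : (Matrix.of fun i j : Fin ((Jm + 1) * n) =>
      K ((e.symm i).1 : ℕ) ((e.symm j).1 : ℕ) ((((e.symm i).2 : ℕ) : ℝ) / (n : ℝ))
        ((((e.symm j).2 : ℕ) : ℝ) / (n : ℝ))).submatrix e e = SB K Jm n := by
    ext p q
    simp [SB, Matrix.submatrix_apply]
  rw [h3] at h2
  exact h2

lemma ofNat_val (Jm J : ℕ) (h : J ≤ Jm) : ((Fin.ofNat (Jm + 1) J : Fin (Jm + 1)) : ℕ) = J := by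
  simp [Fin.ofNat]
  omega

lemma co_cont {Jm n : ℕ} (j : ℕ) (k : Fin n) :
    Continuous fun w : EuclideanSpace ℝ (Fin (Jm + 1) × Fin n) => co w j k := by
  unfold co
  fun_prop

lemma good_meas {Jm n : ℕ} (a : ℝ) (j0 J : ℕ) (k : Fin n) :
    MeasurableSet {w : EuclideanSpace ℝ (Fin (Jm + 1) × Fin n) | good a j0 J w k} := by
  have h1 : {w : EuclideanSpace ℝ (Fin (Jm + 1) × Fin n) | good a j0 J w k} =
      ⋂ j ∈ Finset.Icc j0 J, {w : EuclideanSpace ℝ (Fin (Jm + 1) × Fin n) | co w j k ≤ a * j} := by
    ext w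
    simp only [good, Set.mem_ofPred_eq, Set.mem_iInter, Finset.mem_Icc]
    constructor
    · intro h j hj
      exact h j hj.1 hj.2
    · intro h j h1 h2
      exact h j ⟨h1, h2⟩
  rw [h1]
  apply Finset.measurableSet_biInter
  intro j _
  exact (isClosed_le (co_cont j k) continuous_const).measurableSet

/-- the shift vector of one coordinate -/
lemma dot_single {ι : Type} [Fintype ι] [DecidableEq ι] (S : Matrix ι ι ℝ) (i0 : ι) (γ : ℝ) :
    (∀ w : ι → ℝ, ∑ i, (Pi.single i0 γ : ι → ℝ) i * w i = γ * w i0) ∧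
    (∑ i, ∑ j, (Pi.single i0 γ : ι → ℝ) i * (Pi.single i0 γ : ι → ℝ) j * S i j =
      γ ^ 2 * S i0 i0) ∧
    (∀ i, S.mulVec (Pi.single i0 γ) i = S i i0 * γ) := by
  refine ⟨?_, ?_, ?_⟩
  · intro w
    rw [Finset.sum_eq_single i0]
    · simp
    · intro b _ hb
      simp [hb]
    · simp
  · rw [Finset.sum_eq_single i0]
    · rw [Finset.sum_eq_single i0]
      · rw [Pi.single_eq_same]; ring
      · intro b _ hb
        simp [hb]
      · simp
    · intro b _ hb
      simp [hb]
    · simp
  · intro i
    rw [Matrix.mulVec_single]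
    simp [mul_comm]

theorem t_Q1 : S_GIR → S_TA → S_Q1 := by
  classical
  intro hG hT K κ C hK γ β hγ hγβ ε hε
  have hC1 := hK.kb.C1
  have hκ := hK.κpos
  have hl2 : 0 < Real.log 2 := Real.log_pos (by norm_num)
  set h : ℝ := κ * Real.log 2 with hh
  have hh0 : 0 < h := mul_pos hκ hl2
  set r : ℝ := Real.exp (-((β - γ) ^ 2 * h / 16)) with hr
  have hβγ : 0 < β - γ := by linarith
  have hr1 : r < 1 := by
    rw [hr, Real.exp_lt_one_iff]
    have : 0 < (β - γ) ^ 2 * h / 16 := by positivity
    linarith
  have hr0 : 0 < r := Real.exp_pos _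
  -- choice of j1
  obtain ⟨N1, hN1⟩ := exists_nat_ge (2 * γ * C / ((β - γ) * h))
  obtain ⟨N2, hN2⟩ := exists_nat_ge (C / h)
  obtain ⟨N3, hN3⟩ := exists_pow_lt_of_lt_one (show 0 < ε * (1 - r) by
    apply mul_pos hε; linarith) hr1
  refine ⟨max (max N1 N2) N3, ?_⟩
  intro j0 hj0 Jm n J k hJ
  have hS := sb_psd K κ C hK.kb Jm n
  set S := SB K Jm n with hSdef
  set i0 : Fin (Jm + 1) × Fin n := (Fin.ofNat (Jm + 1) J, k) with hi0
  set x : ℝ := ((k : ℕ) : ℝ) / (n : ℝ) with hx
  have hSii : S i0 i0 = K J J x x := by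
    simp only [hSdef, SB, Matrix.of_apply, hi0, ofNat_val Jm J hJ, hx]
  obtain ⟨hd1, hd2, hd3⟩ := dot_single S i0 γ
  have hex : ∀ w : EuclideanSpace ℝ (Fin (Jm + 1) × Fin n),
      Real.exp ((∑ i, (Pi.single i0 γ : (Fin (Jm + 1) × Fin n) → ℝ) i * w i) -
        (∑ i, ∑ j, (Pi.single i0 γ : (Fin (Jm + 1) × Fin n) → ℝ) i *
          (Pi.single i0 γ : (Fin (Jm + 1) × Fin n) → ℝ) j * S i j) / 2) = ex K γ J w k := by
    intro w
    rw [hd1 w, hd2, hSii]
    unfold ex co
    congr 1
    ring
  constructor
  · have := (hG _ S hS (Pi.single i0 γ) (fun _ => 1) measurable_const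
      ⟨1, fun _ => by norm_num⟩).1
    refine this.congr ?_
    filter_upwards with w
    rw [hex w, mul_one]
  · have hgm := good_meas (Jm := Jm) (n := n) (β * h) j0 J k
    have hFm : Measurable (fun w : EuclideanSpace ℝ (Fin (Jm + 1) × Fin n) =>
        if good (β * h) j0 J w k then (0 : ℝ) else 1) :=
      Measurable.ite hgm measurable_const measurable_const
    have h1 := (hG _ S hS (Pi.single i0 γ) (fun w => if good (β * h) j0 J w k then (0 : ℝ) else 1)
      hFm ⟨1, fun w => by split_ifs <;> norm_num⟩).2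
    have h2 : ∀ w : EuclideanSpace ℝ (Fin (Jm + 1) × Fin n),
        (if good (β * h) j0 J w k then 0 else ex K γ J w k) =
        Real.exp ((∑ i, (Pi.single i0 γ : (Fin (Jm + 1) × Fin n) → ℝ) i * w i) -
        (∑ i, ∑ j, (Pi.single i0 γ : (Fin (Jm + 1) × Fin n) → ℝ) i *
          (Pi.single i0 γ : (Fin (Jm + 1) × Fin n) → ℝ) j * S i j) / 2) *
          (if good (β * h) j0 J w k then (0 : ℝ) else 1) := by
      intro w
      rw [hex w]
      split_ifs <;> ring
    rw [show (∫ w, (if good (β * h) j0 J w k then 0 else ex K γ J w k)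
        ∂(multivariateGaussian (0 : EuclideanSpace ℝ (Fin (Jm + 1) × Fin n)) S)) = _ from
        integral_congr_ae (Filter.Eventually.of_forall h2), h1]
    -- the shifted indicator
    set μ := multivariateGaussian (0 : EuclideanSpace ℝ (Fin (Jm + 1) × Fin n)) S with hμ
    have h3 : ∀ w : EuclideanSpace ℝ (Fin (Jm + 1) × Fin n),
        (if good (β * h) j0 J (w + WithLp.toLp 2 (S.mulVec (Pi.single i0 γ))) k then (0 : ℝ) else 1) ≤
        ∑ j ∈ Finset.Icc j0 J, Set.indicator
          {w : EuclideanSpace ℝ (Fin (Jm + 1) × Fin n) | (β - γ) * h * j / 2 ≤ co w j k}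
          (fun _ => (1 : ℝ)) w := by
      intro w
      have hnn : ∀ j ∈ Finset.Icc j0 J, 0 ≤ Set.indicator
          {w : EuclideanSpace ℝ (Fin (Jm + 1) × Fin n) | (β - γ) * h * j / 2 ≤ co w j k}
          (fun _ => (1 : ℝ)) w := by
        intro j _
        apply Set.indicator_nonneg
        intro _ _
        norm_num
      split_ifs with hg
      · exact Finset.sum_nonneg hnn
      · unfold good at hg
        push Not at hg
        obtain ⟨j, hj1, hj2, hj3⟩ := hg
        have hjm : j ∈ Finset.Icc j0 J := Finset.mem_Icc.mpr ⟨hj1, hj2⟩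
        refine le_trans (le_of_eq ?_) (Finset.single_le_sum hnn hjm)
        rw [Set.indicator_of_mem]
        show (β - γ) * h * j / 2 ≤ co w j k
        have h4 : co (w + WithLp.toLp 2 (S.mulVec (Pi.single i0 γ))) j k =
            co w j k + K j J x x * γ := by
          unfold co
          rw [PiLp.add_apply]
          congr 1
          show S.mulVec (Pi.single i0 γ) _ = _
          rw [hd3]
          simp only [hSdef, SB, Matrix.of_apply, hi0, ofNat_val Jm J hJ,
            ofNat_val Jm j (hj2.trans hJ), hx]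
        rw [h4] at hj3
        have h5 := hK.diag j J x
        rw [min_eq_left hj2, abs_le] at h5
        have h6 : K j J x x ≤ h * j + C := by linarith [h5.2]
        have h7 : K j J x x * γ ≤ (h * j + C) * γ := mul_le_mul_of_nonneg_right h6 hγ.le
        have h8 : (N1 : ℝ) ≤ j := by
          exact_mod_cast (le_trans (le_trans (le_max_left N1 N2) (le_max_left _ N3)) hj0).trans hj1
        have h9 : 2 * γ * C ≤ (β - γ) * h * j := by
          have := hN1.trans h8
          rw [div_le_iff₀ (by positivity)] at this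
          linarith
        nlinarith
    have h4 : ∀ j ∈ Finset.Icc j0 J, MeasurableSet
        {w : EuclideanSpace ℝ (Fin (Jm + 1) × Fin n) | (β - γ) * h * j / 2 ≤ co w j k} := by
      intro j _
      exact (isClosed_le continuous_const (co_cont j k)).measurableSet
    have h5 : Integrable (fun w => ∑ j ∈ Finset.Icc j0 J, Set.indicator
          {w : EuclideanSpace ℝ (Fin (Jm + 1) × Fin n) | (β - γ) * h * j / 2 ≤ co w j k}
          (fun _ => (1 : ℝ)) w) μ := by
      apply integrable_finsetSum
      intro j hj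
      exact (integrable_const 1).indicator (h4 j hj)
    calc ∫ w, (if good (β * h) j0 J (w + WithLp.toLp 2 (S.mulVec (Pi.single i0 γ))) k
            then (0 : ℝ) else 1) ∂μ
        ≤ ∫ w, ∑ j ∈ Finset.Icc j0 J, Set.indicator
          {w : EuclideanSpace ℝ (Fin (Jm + 1) × Fin n) | (β - γ) * h * j / 2 ≤ co w j k}
          (fun _ => (1 : ℝ)) w ∂μ := by
          apply integral_mono_of_nonneg _ h5 (Filter.Eventually.of_forall h3)
          filter_upwards with w
          split_ifs <;> norm_num
      _ = ∑ j ∈ Finset.Icc j0 J, μ.real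
          {w : EuclideanSpace ℝ (Fin (Jm + 1) × Fin n) | (β - γ) * h * j / 2 ≤ co w j k} := by
          rw [integral_finsetSum _ fun j hj => (integrable_const 1).indicator (h4 j hj)]
          apply Finset.sum_congr rfl
          intro j hj
          rw [integral_indicator_const _ (h4 j hj)]
          simp
      _ ≤ ∑ j ∈ Finset.Icc j0 J, r ^ j := by
          apply Finset.sum_le_sum
          intro j hj
          obtain ⟨hj1, hj2⟩ := Finset.mem_Icc.mp hj
          have h6 : (N2 : ℝ) ≤ j := by
            exact_mod_cast (le_trans (le_trans (le_max_right N1 N2) (le_max_left _ N3)) hj0).trans hj1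
          have h7 : C ≤ h * j := by
            have := hN2.trans h6
            rw [div_le_iff₀ hh0] at this
            linarith
          have h8 := hK.diag j j x
          rw [min_self, abs_le] at h8
          have hjpos : 0 < h * j := by linarith
          have h9 : S (Fin.ofNat (Jm + 1) j, k) (Fin.ofNat (Jm + 1) j, k) ≤ 2 * (h * j) := by
            have : S (Fin.ofNat (Jm + 1) j, k) (Fin.ofNat (Jm + 1) j, k) = K j j x x := by
              simp only [hSdef, SB, Matrix.of_apply, ofNat_val Jm j (hj2.trans hJ), hx]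
            rw [this]
            linarith [h8.2]
          have h10 := ((hT _ S hS (Fin.ofNat (Jm + 1) j, k)).1 (2 * (h * j))
            ((β - γ) * h * j / 2) h9 (by linarith) (by positivity)).1
          refine le_trans h10 (le_of_eq ?_)
          rw [hr, ← Real.exp_nat_mul]
          congr 1
          have hjne : (j : ℝ) ≠ 0 := by
            intro h0
            rw [h0] at hjpos
            simp at hjpos
          field_simp
          ring
      _ ≤ r ^ j0 / (1 - r) := by
          have h6 : ∑ j ∈ Finset.Icc j0 J, r ^ j ≤ ∑' j, r ^ (j0 + j) := by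
            have hs : Summable fun j => r ^ (j0 + j) := by
              simp_rw [pow_add]
              exact (summable_geometric_of_lt_one hr0.le hr1).mul_left _
            have h7 : ∑ j ∈ Finset.Icc j0 J, r ^ j = ∑ j ∈ Finset.range (J + 1 - j0), r ^ (j0 + j) := by
              have : Finset.Icc j0 J = Finset.Ico j0 (J + 1) := by
                ext z; simp
              rw [this, Finset.sum_Ico_eq_sum_range]
            rw [h7]
            exact hs.sum_le_tsum _ fun j _ => by positivity
          refine le_trans h6 (le_of_eq ?_)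
          simp_rw [pow_add]
          rw [tsum_mul_left, tsum_geometric_of_lt_one hr0.le hr1]
          rfl
      _ ≤ ε := by
          rw [div_le_iff₀ (by linarith)]
          have h6 : r ^ j0 ≤ r ^ N3 := pow_le_pow_of_le_one hr0.le hr1.le
            ((le_max_right _ N3).trans hj0)
          linarith

end Pool.Agent.Q153.GC
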