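import Pool.Agent.Q153.GC.Q1
import Pool.Agent.Q237.GC.QF

/-!
Job GC-Q4: the truncated chaos converges in mean square.
-/

set_option autoImplicit false

namespace Pool.Agent.Q153.GC

open Filter Topology MeasureTheory ProbabilityTheory
open Pool.Agent.Q278.GC
open scoped ComplexConjugate

lemma sum_rpow_le (s : ℝ) (h0 : 0 < s) (h1 : s < 1) (M : ℕ) :
    ∑ m ∈ Finset.Icc 1 M, (m : ℝ) ^ (-s) ≤ (M : ℝ) ^ (1 - s) / (1 - s) := by
  induction M with
  | zero => simp [Real.zero_rpow (by linarith : (1 - s) ≠ 0)]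
  | succ M ih =>
    rw [Finset.sum_Icc_succ_top (by omega)]
    have hy : (0 : ℝ) < (M : ℝ) + 1 := by positivity
    have h2 : (M : ℝ) ^ (1 - s) ≤ ((M : ℝ) + 1) ^ (1 - s) - (1 - s) * ((M : ℝ) + 1) ^ (-s) := by
      have h3 : (M : ℝ) = ((M : ℝ) + 1) * (1 + -(1 / ((M : ℝ) + 1))) := by
        field_simp
        ring
      have h4 : -1 ≤ -(1 / ((M : ℝ) + 1)) := by
        have : 1 / ((M : ℝ) + 1) ≤ 1 := by
          rw [div_le_one hy]
          have : (0 : ℝ) ≤ M := Nat.cast_nonneg M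
          linarith
        linarith
      have h5 := rpow_one_add_le_one_add_mul_self h4 (by linarith : 0 ≤ 1 - s)
        (by linarith : 1 - s ≤ 1)
      have h6 : (M : ℝ) ^ (1 - s) = ((M : ℝ) + 1) ^ (1 - s) *
          (1 + -(1 / ((M : ℝ) + 1))) ^ (1 - s) := by
        conv_lhs => rw [h3]
        exact Real.mul_rpow hy.le (by linarith)
      rw [h6]
      calc ((M : ℝ) + 1) ^ (1 - s) * (1 + -(1 / ((M : ℝ) + 1))) ^ (1 - s)
          ≤ ((M : ℝ) + 1) ^ (1 - s) * (1 + (1 - s) * -(1 / ((M : ℝ) + 1))) := by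
            apply mul_le_mul_of_nonneg_left h5
            positivity
        _ = ((M : ℝ) + 1) ^ (1 - s) - (1 - s) * (((M : ℝ) + 1) ^ (1 - s) / ((M : ℝ) + 1)) := by
            ring
        _ = ((M : ℝ) + 1) ^ (1 - s) - (1 - s) * ((M : ℝ) + 1) ^ (-s) := by
            congr 2
            rw [← Real.rpow_sub_one hy.ne']
            congr 1
            ring
    have h7 : 0 < 1 - s := by linarith
    rw [le_div_iff₀ h7] at ih ⊢
    push_cast
    nlinarith

lemma near_sum (s : ℝ) (h0 : 0 < s) (h1 : s < 1) (n : ℕ) (hn : 0 < n) (η : ℝ) (hη : 0 < η)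
    (k : Fin n) :
    ∑ l : Fin n, (if k ≠ l ∧ |((k : ℕ) : ℝ) / n - ((l : ℕ) : ℝ) / n| ≤ η then
      |((k : ℕ) : ℝ) / n - ((l : ℕ) : ℝ) / n| ^ (-s) else 0) ≤
      n * (2 * η ^ (1 - s) / (1 - s)) := by
  have hn' : (0 : ℝ) < n := by exact_mod_cast hn
  set M := ⌊η * n⌋₊ with hM
  have h2 : ∀ l : Fin n, (if k ≠ l ∧ |((k : ℕ) : ℝ) / n - ((l : ℕ) : ℝ) / n| ≤ η then
      |((k : ℕ) : ℝ) / n - ((l : ℕ) : ℝ) / n| ^ (-s) else 0) ≤
      ∑ m ∈ Finset.Icc 1 M, ((if (k : ℕ) + m = l then (1 : ℝ) else 0) +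
        (if (l : ℕ) + m = k then (1 : ℝ) else 0)) * ((m : ℝ) / n) ^ (-s) := by
    intro l
    have hnn : ∀ m ∈ Finset.Icc 1 M, 0 ≤ ((if (k : ℕ) + m = l then (1 : ℝ) else 0) +
        (if (l : ℕ) + m = k then (1 : ℝ) else 0)) * ((m : ℝ) / n) ^ (-s) := by
      intro m _
      apply mul_nonneg
      · apply add_nonneg <;> split_ifs <;> norm_num
      · positivity
    split_ifs with hc
    · obtain ⟨hkl, hd⟩ := hc
      have hkl' : (k : ℕ) ≠ l := fun h => hkl (Fin.ext h)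
      rcases lt_or_gt_of_ne hkl' with h3 | h3
      · have h4 : |((k : ℕ) : ℝ) / n - ((l : ℕ) : ℝ) / n| = (((l : ℕ) - (k : ℕ) : ℕ) : ℝ) / n := by
          rw [Nat.cast_sub h3.le, abs_sub_comm, ← sub_div, abs_of_nonneg]
          apply div_nonneg _ hn'.le
          have : ((k : ℕ) : ℝ) ≤ ((l : ℕ) : ℝ) := by exact_mod_cast h3.le
          linarith
        have h5 : (l : ℕ) - (k : ℕ) ∈ Finset.Icc 1 M := by
          rw [Finset.mem_Icc]
          refine ⟨by omega, ?_⟩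
          apply Nat.le_floor
          rw [h4, div_le_iff₀ hn'] at hd
          exact hd
        refine le_trans (le_of_eq ?_) (Finset.single_le_sum hnn h5)
        rw [h4, if_pos (by omega), if_neg (by omega)]
        ring
      · have h4 : |((k : ℕ) : ℝ) / n - ((l : ℕ) : ℝ) / n| = (((k : ℕ) - (l : ℕ) : ℕ) : ℝ) / n := by
          rw [Nat.cast_sub h3.le, ← sub_div, abs_of_nonneg]
          apply div_nonneg _ hn'.le
          have : ((l : ℕ) : ℝ) ≤ ((k : ℕ) : ℝ) := by exact_mod_cast h3.le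
          linarith
        have h5 : (k : ℕ) - (l : ℕ) ∈ Finset.Icc 1 M := by
          rw [Finset.mem_Icc]
          refine ⟨by omega, ?_⟩
          apply Nat.le_floor
          rw [h4, div_le_iff₀ hn'] at hd
          exact hd
        refine le_trans (le_of_eq ?_) (Finset.single_le_sum hnn h5)
        rw [h4, if_neg (by omega), if_pos (by omega)]
        ring
    · exact Finset.sum_nonneg hnn
  have h3 : ∀ m : ℕ, ∑ l : Fin n, ((if (k : ℕ) + m = l then (1 : ℝ) else 0) +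
        (if (l : ℕ) + m = k then (1 : ℝ) else 0)) ≤ 2 := by
    intro m
    rw [Finset.sum_add_distrib]
    have h4 : ∑ l : Fin n, (if (k : ℕ) + m = l then (1 : ℝ) else 0) ≤ 1 := by
      rw [Finset.sum_boole]
      have : (Finset.univ.filter fun l : Fin n => (k : ℕ) + m = l).card ≤ 1 := by
        rw [Finset.card_le_one]
        intro a ha b hb
        simp only [Finset.mem_filter, Finset.mem_univ, true_and] at ha hb
        exact Fin.ext (by omega)
      exact_mod_cast this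
    have h5 : ∑ l : Fin n, (if (l : ℕ) + m = k then (1 : ℝ) else 0) ≤ 1 := by
      rw [Finset.sum_boole]
      have : (Finset.univ.filter fun l : Fin n => (l : ℕ) + m = k).card ≤ 1 := by
        rw [Finset.card_le_one]
        intro a ha b hb
        simp only [Finset.mem_filter, Finset.mem_univ, true_and] at ha hb
        exact Fin.ext (by omega)
      exact_mod_cast this
    linarith
  calc ∑ l : Fin n, (if k ≠ l ∧ |((k : ℕ) : ℝ) / n - ((l : ℕ) : ℝ) / n| ≤ η then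
      |((k : ℕ) : ℝ) / n - ((l : ℕ) : ℝ) / n| ^ (-s) else 0)
      ≤ ∑ l : Fin n, ∑ m ∈ Finset.Icc 1 M, ((if (k : ℕ) + m = l then (1 : ℝ) else 0) +
        (if (l : ℕ) + m = k then (1 : ℝ) else 0)) * ((m : ℝ) / n) ^ (-s) :=
        Finset.sum_le_sum fun l _ => h2 l
    _ = ∑ m ∈ Finset.Icc 1 M, (∑ l : Fin n, ((if (k : ℕ) + m = l then (1 : ℝ) else 0) +
        (if (l : ℕ) + m = k then (1 : ℝ) else 0))) * ((m : ℝ) / n) ^ (-s) := by
        rw [Finset.sum_comm]
        apply Finset.sum_congr rfl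
        intro m _
        rw [Finset.sum_mul]
    _ ≤ ∑ m ∈ Finset.Icc 1 M, 2 * ((m : ℝ) / n) ^ (-s) := by
        apply Finset.sum_le_sum
        intro m _
        apply mul_le_mul_of_nonneg_right (h3 m)
        positivity
    _ = 2 * (n : ℝ) ^ s * ∑ m ∈ Finset.Icc 1 M, (m : ℝ) ^ (-s) := by
        rw [Finset.mul_sum]
        apply Finset.sum_congr rfl
        intro m _
        rw [Real.div_rpow (Nat.cast_nonneg m) hn'.le, Real.rpow_neg hn'.le s, div_inv_eq_mul]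
        ring
    _ ≤ 2 * (n : ℝ) ^ s * ((η * n) ^ (1 - s) / (1 - s)) := by
        apply mul_le_mul_of_nonneg_left _ (by positivity)
        refine (sum_rpow_le s h0 h1 M).trans ?_
        apply div_le_div_of_nonneg_right _ (by linarith)
        apply Real.rpow_le_rpow (Nat.cast_nonneg M) _ (by linarith)
        exact Nat.floor_le (by positivity)
    _ = n * (2 * η ^ (1 - s) / (1 - s)) := by
        rw [Real.mul_rpow hη.le hn'.le]
        have : (n : ℝ) ^ s * (n : ℝ) ^ (1 - s) = n := by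
          rw [← Real.rpow_add hn']
          simp
        calc 2 * (n : ℝ) ^ s * (η ^ (1 - s) * (n : ℝ) ^ (1 - s) / (1 - s))
            = ((n : ℝ) ^ s * (n : ℝ) ^ (1 - s)) * (2 * η ^ (1 - s) / (1 - s)) := by ring
          _ = _ := by rw [this]

/-- the double sum -/
lemma dbl (s : ℝ) (h0 : 0 < s) (h1 : s < 1) (n : ℕ) (hn : 0 < n) (η : ℝ) (hη : 0 < η)
    (P D A e : ℝ) (hP : 0 ≤ P) (_hD : 0 ≤ D) (hA : 0 ≤ A) (he : 0 ≤ e) (q : Fin n → ℝ)
    (hq0 : ∀ k, 0 ≤ q k) (hq : ∀ k, q k ≤ P / n) (E : Fin n → Fin n → ℝ)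
    (hE0 : ∀ k l, 0 ≤ E k l) (hEd : ∀ k, E k k ≤ D)
    (hEn : ∀ k l : Fin n, k ≠ l → E k l ≤ A * |((k : ℕ) : ℝ) / n - ((l : ℕ) : ℝ) / n| ^ (-s))
    (hEf : ∀ k l : Fin n, η < |((k : ℕ) : ℝ) / n - ((l : ℕ) : ℝ) / n| → E k l ≤ e) :
    ∑ k, ∑ l, q k * q l * E k l ≤ P ^ 2 * (D / n + A * (2 * η ^ (1 - s) / (1 - s)) + e) := by
  have hn' : (0 : ℝ) < n := by exact_mod_cast hn
  have h2 : ∀ k l : Fin n, E k l ≤ (if k = l then D else 0) +
      A * (if k ≠ l ∧ |((k : ℕ) : ℝ) / n - ((l : ℕ) : ℝ) / n| ≤ η then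
      |((k : ℕ) : ℝ) / n - ((l : ℕ) : ℝ) / n| ^ (-s) else 0) + e := by
    intro k l
    by_cases hkl : k = l
    · subst hkl
      simp only [if_true, ne_eq, not_true_eq_false, false_and, if_false, mul_zero, add_zero]
      linarith [hEd k]
    · by_cases hd : |((k : ℕ) : ℝ) / n - ((l : ℕ) : ℝ) / n| ≤ η
      · rw [if_neg hkl, if_pos ⟨hkl, hd⟩]
        linarith [hEn k l hkl]
      · rw [if_neg hkl, if_neg (fun h => hd h.2)]
        linarith [hEf k l (not_le.mp hd)]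
  have hPn : 0 ≤ P / n := by positivity
  have h3 : ∀ k : Fin n, ∑ l, q k * q l * E k l ≤
      (P / n) ^ 2 * (D + A * (n * (2 * η ^ (1 - s) / (1 - s))) + n * e) := by
    intro k
    calc ∑ l, q k * q l * E k l
        ≤ ∑ l, (P / n) ^ 2 * ((if k = l then D else 0) +
          A * (if k ≠ l ∧ |((k : ℕ) : ℝ) / n - ((l : ℕ) : ℝ) / n| ≤ η then
          |((k : ℕ) : ℝ) / n - ((l : ℕ) : ℝ) / n| ^ (-s) else 0) + e) := by
          apply Finset.sum_le_sum
          intro l _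
          have h4 : q k * q l ≤ (P / n) ^ 2 := by
            rw [sq]
            exact mul_le_mul (hq k) (hq l) (hq0 l) hPn
          exact mul_le_mul h4 (h2 k l) (hE0 k l) (by positivity)
      _ = (P / n) ^ 2 * ((∑ l, (if k = l then D else 0)) +
          A * (∑ l, (if k ≠ l ∧ |((k : ℕ) : ℝ) / n - ((l : ℕ) : ℝ) / n| ≤ η then
          |((k : ℕ) : ℝ) / n - ((l : ℕ) : ℝ) / n| ^ (-s) else 0)) + n * e) := by
          rw [← Finset.mul_sum, Finset.sum_add_distrib, Finset.sum_add_distrib, ← Finset.mul_sum,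
            Finset.sum_const, Finset.card_univ, Fintype.card_fin, nsmul_eq_mul]
      _ ≤ (P / n) ^ 2 * (D + A * (n * (2 * η ^ (1 - s) / (1 - s))) + n * e) := by
          apply mul_le_mul_of_nonneg_left _ (by positivity)
          have h5 : ∑ l : Fin n, (if k = l then D else 0) = D := by simp
          rw [h5]
          have h6 := mul_le_mul_of_nonneg_left (near_sum s h0 h1 n hn η hη k) hA
          linarith
  calc ∑ k, ∑ l, q k * q l * E k l
      ≤ ∑ _k : Fin n, (P / n) ^ 2 * (D + A * (n * (2 * η ^ (1 - s) / (1 - s))) + n * e) :=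
        Finset.sum_le_sum fun k _ => h3 k
    _ = n * ((P / n) ^ 2 * (D + A * (n * (2 * η ^ (1 - s) / (1 - s))) + n * e)) := by
        rw [Finset.sum_const, Finset.card_univ, Fintype.card_fin, nsmul_eq_mul]
    _ = P ^ 2 * (D / n + A * (2 * η ^ (1 - s) / (1 - s)) + e) := by
        field_simp

lemma norm_sq_expand {n : ℕ} (p : Fin n → ℂ) (d : Fin n → ℝ) :
    ‖∑ k, p k * ((d k : ℝ) : ℂ)‖ ^ 2 = ∑ k, ∑ l, (p k * conj (p l)).re * (d k * d l) := by
  have h1 : ((‖∑ k, p k * ((d k : ℝ) : ℂ)‖ ^ 2 : ℝ) : ℂ) =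
      (∑ k, p k * ((d k : ℝ) : ℂ)) * conj (∑ k, p k * ((d k : ℝ) : ℂ)) := by
    rw [Complex.mul_conj, Complex.normSq_eq_norm_sq]
  have h2 : (∑ k, p k * ((d k : ℝ) : ℂ)) * conj (∑ k, p k * ((d k : ℝ) : ℂ)) =
      ∑ k, ∑ l, (p k * conj (p l)) * (((d k * d l : ℝ)) : ℂ) := by
    rw [map_sum, Finset.sum_mul_sum]
    apply Finset.sum_congr rfl
    intro k _
    apply Finset.sum_congr rfl
    intro l _
    rw [map_mul, Complex.conj_ofReal]
    push_cast
    ring
  rw [h2] at h1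
  have h3 := congrArg Complex.re h1
  rw [Complex.ofReal_re] at h3
  rw [h3, Complex.re_sum]
  apply Finset.sum_congr rfl
  intro k _
  rw [Complex.re_sum]
  apply Finset.sum_congr rfl
  intro l _
  rw [Complex.re_mul_ofReal]

lemma int_bound {Ω : Type} [MeasurableSpace Ω] (μ : Measure Ω) {n : ℕ} (p : Fin n → ℂ)
    (d : Fin n → Ω → ℝ) (hint : ∀ k l, Integrable (fun w => d k w * d l w) μ) :
    Integrable (fun w => ‖∑ k, p k * ((d k w : ℝ) : ℂ)‖ ^ 2) μ ∧
    ∫ w, ‖∑ k, p k * ((d k w : ℝ) : ℂ)‖ ^ 2 ∂μ ≤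
      ∑ k, ∑ l, ‖p k‖ * ‖p l‖ * |∫ w, d k w * d l w ∂μ| := by
  have h1 : (fun w => ‖∑ k, p k * ((d k w : ℝ) : ℂ)‖ ^ 2) =
      fun w => ∑ k, ∑ l, (p k * conj (p l)).re * (d k w * d l w) := by
    funext w
    exact norm_sq_expand p fun k => d k w
  have h2 : ∀ k l, Integrable (fun w => (p k * conj (p l)).re * (d k w * d l w)) μ :=
    fun k l => (hint k l).const_mul _
  rw [h1]
  refine ⟨integrable_finsetSum _ fun k _ => integrable_finsetSum _ fun l _ => h2 k l, ?_⟩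
  rw [integral_finsetSum _ fun k _ => integrable_finsetSum _ fun l _ => h2 k l]
  apply Finset.sum_le_sum
  intro k _
  rw [integral_finsetSum _ fun l _ => h2 k l]
  apply Finset.sum_le_sum
  intro l _
  rw [integral_const_mul]
  refine (le_abs_self _).trans ?_
  rw [abs_mul]
  apply mul_le_mul_of_nonneg_right _ (abs_nonneg _)
  refine (Complex.abs_re_le_norm _).trans ?_
  rw [norm_mul, RCLike.norm_conj]

lemma ph_bound (φ : ℝ → ℂ) (P : ℝ) (hP : ∀ x ∈ Set.Icc (0 : ℝ) 1, ‖φ x‖ ≤ P) (n : ℕ) (k : Fin n) :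
    ‖ph φ n k‖ ≤ P / n := by
  have hn : 0 < n := by have := k.2; omega
  have hn' : (0 : ℝ) < n := by exact_mod_cast hn
  unfold ph
  have hle : ((k : ℕ) : ℝ) / n ≤ (((k : ℕ) : ℝ) + 1) / n := by
    apply div_le_div_of_nonneg_right _ hn'.le
    linarith
  have h1 := intervalIntegral.norm_integral_le_of_norm_le_const (a := ((k : ℕ) : ℝ) / n)
    (b := (((k : ℕ) : ℝ) + 1) / n) (f := φ) (C := P) (by
      intro x hx
      rw [Set.uIoc_of_le hle] at hx
      apply hP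
      constructor
      · exact le_trans (by positivity) hx.1.le
      · refine hx.2.trans ?_
        rw [div_le_one hn']
        have : (k : ℕ) + 1 ≤ n := k.2
        exact_mod_cast this)
  refine h1.trans (le_of_eq ?_)
  rw [abs_of_nonneg (by linarith)]
  field_simp
  ring

open Classical in
/-- the truncated exponential -/
noncomputable def GG (K : ℕ → ℕ → ℝ → ℝ → ℝ) (γ a : ℝ) (j0 : ℕ) {Jm n : ℕ} (J : ℕ) (k : Fin n)
    (w : EuclideanSpace ℝ (Fin (Jm + 1) × Fin n)) : ℝ :=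
  if good a j0 J w k then ex K γ J w k else 0

lemma ex_cont (K : ℕ → ℕ → ℝ → ℝ → ℝ) (γ : ℝ) {Jm n : ℕ} (J : ℕ) (k : Fin n) :
    Continuous fun w : EuclideanSpace ℝ (Fin (Jm + 1) × Fin n) => ex K γ J w k := by
  have := co_cont (Jm := Jm) (n := n) J k
  unfold ex
  fun_prop

lemma GG_meas (K : ℕ → ℕ → ℝ → ℝ → ℝ) (γ a : ℝ) (j0 : ℕ) {Jm n : ℕ} (J : ℕ) (k : Fin n) :
    Measurable fun w : EuclideanSpace ℝ (Fin (Jm + 1) × Fin n) => GG K γ a j0 J k w := by
  unfold GG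
  exact Measurable.ite (good_meas a j0 J k) (ex_cont K γ J k).measurable measurable_const

lemma GG_nonneg (K : ℕ → ℕ → ℝ → ℝ → ℝ) (γ a : ℝ) (j0 : ℕ) {Jm n : ℕ} (J : ℕ) (k : Fin n)
    (w : EuclideanSpace ℝ (Fin (Jm + 1) × Fin n)) : 0 ≤ GG K γ a j0 J k w := by
  unfold GG
  split_ifs
  · exact (Real.exp_pos _).le
  · exact le_rfl

lemma GG_le (K : ℕ → ℕ → ℝ → ℝ → ℝ) (γ a : ℝ) (j0 : ℕ) {Jm n : ℕ} (J : ℕ) (k : Fin n)
    (w : EuclideanSpace ℝ (Fin (Jm + 1) × Fin n)) : GG K γ a j0 J k w ≤ ex K γ J w k := by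
  unfold GG
  split_ifs
  · exact le_rfl
  · exact (Real.exp_pos _).le

lemma exex_int (hG : S_GIR) (K : ℕ → ℕ → ℝ → ℝ → ℝ) (κ C : ℝ) (hK : KerB K κ C) (γ : ℝ)
    (Jm n J1 J2 : ℕ) (k l : Fin n) :
    Integrable (fun w : EuclideanSpace ℝ (Fin (Jm + 1) × Fin n) => ex K γ J1 w k * ex K γ J2 w l)
      (multivariateGaussian (0 : EuclideanSpace ℝ (Fin (Jm + 1) × Fin n)) (SB K Jm n)) := by
  classical
  have hS := sb_psd K κ C hK Jm n
  set S := SB K Jm n with hSdef
  set i0 : Fin (Jm + 1) × Fin n := (Fin.ofNat (Jm + 1) J1, k) with hi0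
  set i1 : Fin (Jm + 1) × Fin n := (Fin.ofNat (Jm + 1) J2, l) with hi1
  set a : (Fin (Jm + 1) × Fin n) → ℝ := Pi.single i0 γ + Pi.single i1 γ with ha
  have h1 := (hG _ S hS a (fun _ => 1) measurable_const ⟨1, fun _ => by norm_num⟩).1
  set Q : ℝ := (∑ i, ∑ j, a i * a j * S i j) / 2 with hQ
  have h2 := h1.const_mul (Real.exp (Q - γ ^ 2 / 2 * K J1 J1 (((k : ℕ) : ℝ) / n) (((k : ℕ) : ℝ) / n) -
    γ ^ 2 / 2 * K J2 J2 (((l : ℕ) : ℝ) / n) (((l : ℕ) : ℝ) / n)))
  refine h2.congr ?_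
  filter_upwards with w
  have h3 : ∑ i, a i * w i = γ * w i0 + γ * w i1 := by
    rw [ha]
    simp only [Pi.add_apply, add_mul, Finset.sum_add_distrib]
    rw [(dot_single S i0 γ).1 w, (dot_single S i1 γ).1 w]
  rw [h3, mul_one, ← Real.exp_add]
  unfold ex co
  rw [← Real.exp_add]
  congr 1
  ring

lemma GG_int (hG : S_GIR) (K : ℕ → ℕ → ℝ → ℝ → ℝ) (κ C : ℝ) (hK : KerB K κ C) (γ a : ℝ)
    (j0 Jm n J1 J2 : ℕ) (k l : Fin n) :
    Integrable (fun w : EuclideanSpace ℝ (Fin (Jm + 1) × Fin n) =>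
      GG K γ a j0 J1 k w * GG K γ a j0 J2 l w)
      (multivariateGaussian (0 : EuclideanSpace ℝ (Fin (Jm + 1) × Fin n)) (SB K Jm n)) := by
  refine (exex_int hG K κ C hK γ Jm n J1 J2 k l).mono'
    ((GG_meas K γ a j0 J1 k).mul (GG_meas K γ a j0 J2 l)).aestronglyMeasurable ?_
  filter_upwards with w
  rw [Real.norm_eq_abs, abs_of_nonneg (mul_nonneg (GG_nonneg K γ a j0 J1 k w)
    (GG_nonneg K γ a j0 J2 l w))]
  exact mul_le_mul (GG_le K γ a j0 J1 k w) (GG_le K γ a j0 J2 l w) (GG_nonneg K γ a j0 J2 l w)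
    (Real.exp_pos _).le

lemma QQ_eq (K : ℕ → ℕ → ℝ → ℝ → ℝ) (γ a : ℝ) (j0 Jm n J1 J2 : ℕ) (k l : Fin n) :
    QQ K γ a j0 Jm n J1 J2 k l = ∫ w : EuclideanSpace ℝ (Fin (Jm + 1) × Fin n),
      GG K γ a j0 J1 k w * GG K γ a j0 J2 l w
      ∂(multivariateGaussian (0 : EuclideanSpace ℝ (Fin (Jm + 1) × Fin n)) (SB K Jm n)) := by
  unfold QQ
  apply integral_congr_ae
  filter_upwards with w
  unfold GG
  by_cases h1 : good a j0 J1 w k
  · by_cases h2 : good a j0 J2 w l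
    · simp [h1, h2]
    · simp [h1, h2]
  · simp [h1]

lemma Mt_eq (K : ℕ → ℕ → ℝ → ℝ → ℝ) (γ a : ℝ) (φ : ℝ → ℂ) (j0 : ℕ) {Jm n : ℕ} (J : ℕ)
    (w : EuclideanSpace ℝ (Fin (Jm + 1) × Fin n)) :
    Mt K γ a φ j0 J w = ∑ k : Fin n, ph φ n k * ((GG K γ a j0 J k w : ℝ) : ℂ) := by
  unfold Mt GG
  rfl

theorem t_Q4' (hG : S_GIR) : S_Q2 → S_Q3 → S_Q4 := by
  intro hQ2 hQ3 K κ C hK γ β hγ hγβ hβ2 hs1 j0 hj0 φ hφ
  have hκ := hK.κpos
  set s : ℝ := sx κ γ β with hs
  have hs0 : 0 < s := by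
    rw [hs]
    unfold sx
    apply mul_pos hκ
    nlinarith
  obtain ⟨C', hC'0, hC'⟩ := hQ2 K κ C hK γ β hγ hγβ hβ2 j0
  set a : ℝ := β * (κ * Real.log 2) with ha
  -- bound of φ
  obtain ⟨P, hP1, hP⟩ : ∃ P : ℝ, 1 ≤ P ∧ ∀ x ∈ Set.Icc (0 : ℝ) 1, ‖φ x‖ ≤ P := by
    obtain ⟨B, hB⟩ := isCompact_Icc.exists_bound_of_continuousOn (f := φ) (s := Set.Icc (0 : ℝ) 1)
      hφ.continuousOn
    exact ⟨max B 1, le_max_right _ _, fun x hx => (hB x hx).trans (le_max_left _ _)⟩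
  have hP0 : 0 ≤ P := by linarith
  have hl2 : 0 < Real.log 2 := Real.log_pos (by norm_num)
  have hl21 : Real.log 2 < 1 := by
    have := Real.log_two_lt_d9
    linarith
  have hdiag : ∀ Jm n : ℕ, Real.exp Jm ≤ n →
      Real.exp (s * Real.log 2 * Jm) / n ≤ Real.exp (-(1 - Real.log 2) * Jm) := by
    intro Jm n hn
    have hn' : (0 : ℝ) < n := lt_of_lt_of_le (Real.exp_pos _) hn
    rw [div_le_iff₀ hn']
    calc Real.exp (s * Real.log 2 * Jm) ≤ Real.exp (Real.log 2 * Jm) := by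
          apply Real.exp_le_exp.mpr
          apply mul_le_mul_of_nonneg_right _ (Nat.cast_nonneg Jm)
          nlinarith
      _ = Real.exp (-(1 - Real.log 2) * Jm) * Real.exp Jm := by
          rw [← Real.exp_add]
          congr 1
          ring
      _ ≤ Real.exp (-(1 - Real.log 2) * Jm) * n :=
          mul_le_mul_of_nonneg_left hn (Real.exp_pos _).le
  have hQd : ∀ (Jm n J1 J2 : ℕ) (k l : Fin n), J1 ≤ Jm → J2 ≤ Jm →
      QQ K γ a j0 Jm n J1 J2 k l ≤ C' * Real.exp (s * Real.log 2 * Jm) := by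
    intro Jm n J1 J2 k l h1 h2
    refine (hC' Jm n J1 J2 k l h1 h2).2.1.trans ?_
    apply mul_le_mul_of_nonneg_left _ hC'0.le
    apply Real.exp_le_exp.mpr
    apply mul_le_mul_of_nonneg_left _ (by positivity)
    exact_mod_cast (min_le_left J1 J2).trans h1
  constructor
  · intro ε hε
    -- choices
    have ht : Tendsto (fun η : ℝ => P ^ 2 * (4 * C' * (2 * η ^ (1 - s) / (1 - s))))
        (𝓝[>] 0) (𝓝 0) := by
      have h1 : Tendsto (fun η : ℝ => η ^ (1 - s)) (𝓝[>] 0) (𝓝 0) := by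
        have := (Real.continuousAt_rpow_const 0 (1 - s) (Or.inr (by linarith))).tendsto
        rw [Real.zero_rpow (by linarith)] at this
        exact this.mono_left nhdsWithin_le_nhds
      have h2 := (h1.const_mul (P ^ 2 * (4 * C' * (2 / (1 - s)))))
      rw [mul_zero] at h2
      refine h2.congr fun η => ?_
      ring
    obtain ⟨η, hη1, hη0⟩ : ∃ η : ℝ, P ^ 2 * (4 * C' * (2 * η ^ (1 - s) / (1 - s))) < ε / 3 ∧
        0 < η := by
      have h1 := (ht.eventually (gt_mem_nhds (show (0 : ℝ) < ε / 3 by positivity))).and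
        self_mem_nhdsWithin
      obtain ⟨η, h2, h3⟩ := h1.exists
      exact ⟨η, h2, h3⟩
    obtain ⟨N1, hN1⟩ := hQ3 K κ C hK γ β hγ hγβ j0 hj0 (ε / (6 * P ^ 2)) η (by positivity) hη0
    have ht2 : Tendsto (fun N : ℕ => P ^ 2 * (4 * C' * Real.exp (-(1 - Real.log 2) * N)))
        atTop (𝓝 0) := by
      have h1 : Tendsto (fun N : ℕ => Real.exp (-(1 - Real.log 2) * N)) atTop (𝓝 0) := by
        apply Real.tendsto_exp_atBot.comp
        apply Tendsto.const_mul_atTop_of_neg (by linarith)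
        exact tendsto_natCast_atTop_atTop
      have h2 := h1.const_mul (P ^ 2 * (4 * C'))
      rw [mul_zero] at h2
      refine h2.congr fun N => ?_
      ring
    obtain ⟨N2, hN2⟩ := (ht2.eventually (gt_mem_nhds (show (0 : ℝ) < ε / 3 by positivity))).exists
    refine ⟨max N1 N2, ?_⟩
    intro Jm n J1 J2 hJ1 hJ2 hJ1m hJ2m hn
    have hn' : (0 : ℝ) < n := lt_of_lt_of_le (Real.exp_pos _) hn
    have hn0 : 0 < n := by exact_mod_cast hn'
    set μ := multivariateGaussian (0 : EuclideanSpace ℝ (Fin (Jm + 1) × Fin n)) (SB K Jm n) with hμ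
    set d : Fin n → EuclideanSpace ℝ (Fin (Jm + 1) × Fin n) → ℝ :=
      fun k w => GG K γ a j0 J1 k w - GG K γ a j0 J2 k w with hd
    have hI : ∀ (i j : ℕ) (k l : Fin n), Integrable (fun w =>
      GG K γ a j0 i k w * GG K γ a j0 j l w) μ := fun i j k l =>
      GG_int hG K κ C hK.kb γ a j0 Jm n i j k l
    have hexp : ∀ k l : Fin n, (fun w => d k w * d l w) = fun w =>
        (GG K γ a j0 J1 k w * GG K γ a j0 J1 l w - GG K γ a j0 J1 k w * GG K γ a j0 J2 l w) +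
        (GG K γ a j0 J2 k w * GG K γ a j0 J2 l w - GG K γ a j0 J2 k w * GG K γ a j0 J1 l w) := by
      intro k l
      funext w
      simp only [hd]
      ring
    have hint : ∀ k l, Integrable (fun w => d k w * d l w) μ := by
      intro k l
      rw [hexp k l]
      exact ((hI J1 J1 k l).sub (hI J1 J2 k l)).add ((hI J2 J2 k l).sub (hI J2 J1 k l))
    have hval : ∀ k l, ∫ w, d k w * d l w ∂μ =
        (QQ K γ a j0 Jm n J1 J1 k l - QQ K γ a j0 Jm n J1 J2 k l) +
        (QQ K γ a j0 Jm n J2 J2 k l - QQ K γ a j0 Jm n J2 J1 k l) := by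
      intro k l
      have g1 : Integrable (fun w => GG K γ a j0 J1 k w * GG K γ a j0 J1 l w -
          GG K γ a j0 J1 k w * GG K γ a j0 J2 l w) μ := (hI J1 J1 k l).sub (hI J1 J2 k l)
      have g2 : Integrable (fun w => GG K γ a j0 J2 k w * GG K γ a j0 J2 l w -
          GG K γ a j0 J2 k w * GG K γ a j0 J1 l w) μ := (hI J2 J2 k l).sub (hI J2 J1 k l)
      rw [hexp k l, integral_add g1 g2, integral_sub (hI J1 J1 k l) (hI J1 J2 k l),
        integral_sub (hI J2 J2 k l) (hI J2 J1 k l), QQ_eq, QQ_eq, QQ_eq, QQ_eq]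
    have hM : ∀ w : EuclideanSpace ℝ (Fin (Jm + 1) × Fin n),
        Mt K γ a φ j0 J1 w - Mt K γ a φ j0 J2 w = ∑ k : Fin n, ph φ n k * ((d k w : ℝ) : ℂ) := by
      intro w
      rw [Mt_eq, Mt_eq, ← Finset.sum_sub_distrib]
      apply Finset.sum_congr rfl
      intro k _
      simp only [hd]
      push_cast
      ring
    simp_rw [hM]
    obtain ⟨hb1, hb2⟩ := int_bound μ (fun k : Fin n => ph φ n k) d hint
    refine ⟨hb1, hb2.trans ?_⟩
    have hN1J : ∀ i : ℕ, max N1 N2 ≤ i → N1 ≤ i := fun i hi => (le_max_left _ _).trans hi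
    have h5 := dbl s hs0 hs1 n hn0 η hη0 P (4 * C' * Real.exp (s * Real.log 2 * Jm)) (4 * C')
      (2 * (ε / (6 * P ^ 2))) hP0 (by positivity) (by positivity) (by positivity)
      (fun k : Fin n => ‖ph φ n k‖) (fun k => norm_nonneg _) (fun k => ph_bound φ P hP n k)
      (fun k l => |∫ w, d k w * d l w ∂μ|) (fun k l => abs_nonneg _)
      (by
        intro k
        simp only [hval]
        have e1 := hQd Jm n J1 J1 k k hJ1m hJ1m
        have e2 := hQd Jm n J1 J2 k k hJ1m hJ2m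
        have e3 := hQd Jm n J2 J2 k k hJ2m hJ2m
        have e4 := hQd Jm n J2 J1 k k hJ2m hJ1m
        have f1 := (hC' Jm n J1 J1 k k hJ1m hJ1m).1
        have f2 := (hC' Jm n J1 J2 k k hJ1m hJ2m).1
        have f3 := (hC' Jm n J2 J2 k k hJ2m hJ2m).1
        have f4 := (hC' Jm n J2 J1 k k hJ2m hJ1m).1
        rw [abs_le]
        constructor <;> linarith)
      (by
        intro k l hkl
        simp only [hval]
        have e1 := (hC' Jm n J1 J1 k l hJ1m hJ1m).2.2 hkl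
        have e2 := (hC' Jm n J1 J2 k l hJ1m hJ2m).2.2 hkl
        have e3 := (hC' Jm n J2 J2 k l hJ2m hJ2m).2.2 hkl
        have e4 := (hC' Jm n J2 J1 k l hJ2m hJ1m).2.2 hkl
        have f1 := (hC' Jm n J1 J1 k l hJ1m hJ1m).1
        have f2 := (hC' Jm n J1 J2 k l hJ1m hJ2m).1
        have f3 := (hC' Jm n J2 J2 k l hJ2m hJ2m).1
        have f4 := (hC' Jm n J2 J1 k l hJ2m hJ1m).1
        rw [abs_le]
        constructor <;> linarith)
      (by
        intro k l hkl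
        simp only [hval]
        have e1 := hN1 Jm n J1 J1 J1 J2 k l (hN1J _ hJ1) (hN1J _ hJ1) (hN1J _ hJ1) (hN1J _ hJ2)
          hJ1m hJ1m hJ1m hJ2m hkl.le
        have e2 := hN1 Jm n J2 J2 J2 J1 k l (hN1J _ hJ2) (hN1J _ hJ2) (hN1J _ hJ2) (hN1J _ hJ1)
          hJ2m hJ2m hJ2m hJ1m hkl.le
        refine (abs_add_le _ _).trans ?_
        linarith)
    refine h5.trans ?_
    have h6 : P ^ 2 * (4 * C' * Real.exp (s * Real.log 2 * Jm) / n) ≤ ε / 3 := by
      have h7 := hdiag Jm n hn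
      have h8 : Real.exp (-(1 - Real.log 2) * Jm) ≤ Real.exp (-(1 - Real.log 2) * N2) := by
        apply Real.exp_le_exp.mpr
        have : (N2 : ℝ) ≤ Jm := by
          exact_mod_cast ((le_max_right N1 N2).trans hJ1).trans hJ1m
        nlinarith
      calc P ^ 2 * (4 * C' * Real.exp (s * Real.log 2 * Jm) / n)
          = P ^ 2 * (4 * C') * (Real.exp (s * Real.log 2 * Jm) / n) := by ring
        _ ≤ P ^ 2 * (4 * C') * Real.exp (-(1 - Real.log 2) * N2) := by
            apply mul_le_mul_of_nonneg_left (h7.trans h8) (by positivity)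
        _ ≤ ε / 3 := by
            have := hN2.le
            linarith
    have h9 : P ^ 2 * (2 * (ε / (6 * P ^ 2))) = ε / 3 := by
      have : P ^ 2 ≠ 0 := by positivity
      field_simp
      ring
    calc P ^ 2 * (4 * C' * Real.exp (s * Real.log 2 * Jm) / n +
          4 * C' * (2 * η ^ (1 - s) / (1 - s)) + 2 * (ε / (6 * P ^ 2)))
        = P ^ 2 * (4 * C' * Real.exp (s * Real.log 2 * Jm) / n) +
          P ^ 2 * (4 * C' * (2 * η ^ (1 - s) / (1 - s))) + P ^ 2 * (2 * (ε / (6 * P ^ 2))) := by ring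
      _ ≤ ε / 3 + ε / 3 + ε / 3 := by
          rw [h9]
          linarith
      _ = ε := by ring
  · refine ⟨P ^ 2 * (C' + C' * (2 * 1 / (1 - s)) + 0), ?_⟩
    intro Jm n J hJ hn
    have hn' : (0 : ℝ) < n := lt_of_lt_of_le (Real.exp_pos _) hn
    have hn0 : 0 < n := by exact_mod_cast hn'
    set μ := multivariateGaussian (0 : EuclideanSpace ℝ (Fin (Jm + 1) × Fin n)) (SB K Jm n) with hμ
    have hI : ∀ (k l : Fin n), Integrable (fun w =>
      GG K γ a j0 J k w * GG K γ a j0 J l w) μ := fun k l =>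
      GG_int hG K κ C hK.kb γ a j0 Jm n J J k l
    simp_rw [Mt_eq]
    obtain ⟨hb1, hb2⟩ := int_bound μ (fun k : Fin n => ph φ n k) (fun k w => GG K γ a j0 J k w) hI
    refine ⟨hb1, hb2.trans ?_⟩
    have h5 := dbl s hs0 hs1 n hn0 1 one_pos P (C' * Real.exp (s * Real.log 2 * Jm)) C'
      0 hP0 (by positivity) (by positivity) le_rfl
      (fun k : Fin n => ‖ph φ n k‖) (fun k => norm_nonneg _) (fun k => ph_bound φ P hP n k)
      (fun k l => |∫ w, GG K γ a j0 J k w * GG K γ a j0 J l w ∂μ|) (fun k l => abs_nonneg _)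
      (by
        intro k
        have e1 := hQd Jm n J J k k hJ hJ
        have f1 := (hC' Jm n J J k k hJ hJ).1
        rw [QQ_eq] at e1 f1
        show |∫ w, GG K γ a j0 J k w * GG K γ a j0 J k w ∂μ| ≤ _
        rw [abs_of_nonneg f1]
        exact e1)
      (by
        intro k l hkl
        have e1 := (hC' Jm n J J k l hJ hJ).2.2 hkl
        have f1 := (hC' Jm n J J k l hJ hJ).1
        rw [QQ_eq] at e1 f1
        show |∫ w, GG K γ a j0 J k w * GG K γ a j0 J l w ∂μ| ≤ _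
        rw [abs_of_nonneg f1]
        exact e1)
      (by
        intro k l hkl
        exfalso
        have h1 : |((k : ℕ) : ℝ) / n - ((l : ℕ) : ℝ) / n| ≤ 1 := by
          rw [← sub_div, abs_div, abs_of_pos hn', div_le_one hn', abs_le]
          have hk : ((k : ℕ) : ℝ) ≤ n := by exact_mod_cast k.2.le
          have hl : ((l : ℕ) : ℝ) ≤ n := by exact_mod_cast l.2.le
          have hk0 : (0 : ℝ) ≤ ((k : ℕ) : ℝ) := Nat.cast_nonneg _
          have hl0 : (0 : ℝ) ≤ ((l : ℕ) : ℝ) := Nat.cast_nonneg _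
          constructor <;> linarith
        linarith)
    refine h5.trans ?_
    apply mul_le_mul_of_nonneg_left _ (by positivity)
    rw [Real.one_rpow]
    have h7 := hdiag Jm n hn
    have h8 : Real.exp (-(1 - Real.log 2) * Jm) ≤ 1 := by
      rw [Real.exp_le_one_iff]
      have : (0 : ℝ) ≤ Jm := Nat.cast_nonneg _
      nlinarith
    have h9 : C' * Real.exp (s * Real.log 2 * Jm) / n ≤ C' := by
      rw [mul_div_assoc]
      calc C' * (Real.exp (s * Real.log 2 * Jm) / n) ≤ C' * 1 :=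
            mul_le_mul_of_nonneg_left (h7.trans h8) hC'0.le
        _ = C' := mul_one _
    linarith

theorem t_Q4 : S_Q2 → S_Q3 → S_Q4 := t_Q4' Pool.Agent.Q237.GC.t_GIR

end Pool.Agent.Q153.GC
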